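import Mathlib
import Pool.Agent.Y399.MG.C
import Pool.Agent.Y399.MG.H

/-!
# Integral matrices over number fields of large discriminant
-/

set_option autoImplicit false

namespace Pool.Agent.V1156.MJ

open Finset Polynomial Module NumberField IntermediateField
open Pool.Agent.H225R3.Marg Pool.Agent.Y399.MG

/-- the lower bound in terms of `t = n / δ` -/
noncomputable def lowerC (c t : ℝ) : ℝ :=
  c * (Real.log (Real.log (16 + t)) / Real.log (16 + t)) ^ 3

lemma lowerC_pos {c t : ℝ} (hc : 0 < c) (ht : 0 ≤ t) : 0 < lowerC c t := by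
  have h1 : Real.exp 1 < 16 + t := by
    have := Real.exp_one_lt_d9
    linarith
  have h2 : 1 < Real.log (16 + t) := by
    rw [Real.lt_log_iff_exp_lt (by linarith)]
    exact h1
  have h3 : 0 < Real.log (Real.log (16 + t)) := Real.log_pos h2
  unfold lowerC
  positivity

/-- **The lower bound for number fields of large discriminant.** -/
theorem gap_disc : ∃ c : ℝ, 0 < c ∧ ∀ (k : Type) [Field k] [NumberField k] (n s : ℕ)
    (S : Finset (k →+* ℂ)) (A : Matrix (Fin n) (Fin n) (𝓞 k)) (δ : ℝ), S.card ≤ s →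
    (∀ σ ∈ S, ∀ σ' ∈ S, σ ≠ σ' → s * n ^ 2 * finrank ℚ k < pairDeg σ σ') → 0 < δ →
    (δ * finrank ℚ k) ^ finrank ℚ k ≤ |(discr k : ℝ)| → IsUnit A →
    (∀ σ : k →+* ℂ, σ ∉ S → ∀ l : ℂ, ((emb σ).mapMatrix A).charpoly.IsRoot l → ‖l‖ ≤ 1) →
    (∀ N : ℕ, 0 < N → ¬ IsNilpotent (A ^ N - 1)) →
    ∃ σ ∈ S, ∃ l : ℂ, ((emb σ).mapMatrix A).charpoly.IsRoot l ∧ 1 < ‖l‖ ∧
      lowerC c (n / δ) ≤ (s * n : ℕ) * Real.log ‖l‖ := by
  obtain ⟨c, hc, h⟩ := lower
  refine ⟨c, hc, ?_⟩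
  intro k _ _ n s S A δ hs hS hδ hdisc hA hout hnil
  refine gap_of k n S A (fun R => lowerC c (n / δ) ≤ (s * n : ℕ) * Real.log R) ?_ hA hout hnil
  intro L _ _ _ x R hx0 hxi hroot hR hout' hin hdeg
  exact h k L S x s n δ R hx0 hxi hroot hR hout' hin hs hdeg hS hδ hdisc

end Pool.Agent.V1156.MJ
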