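import Mathlib
import Pool.Agent.Y642.LZ.J
import Pool.Agent.W963.GE.Conj

/-!
# Embeddings into a local field and a lower bound for Mahler measures
-/

set_option autoImplicit false

namespace Pool.Agent.V1156.MJ

open Finset Polynomial Module NumberField IntermediateField
open Pool.Agent.Y642.LZ (Place)

section

variable {E k L : Type} [Field E] [Field k] [Field L] [Algebra k L]

/-- the extensions of an embedding are the algebra homomorphisms -/
noncomputable def extEquiv (φ : k →+* E) :
    {ψ : L →+* E // ψ.comp (algebraMap k L) = φ} ≃ @AlgHom k L E _ _ _ _ φ.toAlgebra :=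
  letI : Algebra k E := φ.toAlgebra
  { toFun := fun ψ => { ψ.1 with commutes' := fun r => RingHom.congr_fun ψ.2 r }
    invFun := fun ψ => ⟨ψ.toRingHom, RingHom.ext ψ.commutes⟩
    left_inv := fun _ => rfl
    right_inv := fun _ => rfl }

lemma card_ext [FiniteDimensional k L] [Algebra.IsSeparable k L] (φ : k →+* E)
    (h : ∀ x : L, ((minpoly k x).map φ).Splits) :
    Nat.card {ψ : L →+* E // ψ.comp (algebraMap k L) = φ} = finrank k L := by
  letI : Algebra k E := φ.toAlgebra
  rw [Nat.card_congr (extEquiv φ)]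
  exact AlgHom.natCard_of_splits k L E h

lemma card_ext_le [FiniteDimensional k L] (φ : k →+* E) :
    Nat.card {ψ : L →+* E // ψ.comp (algebraMap k L) = φ} ≤ finrank k L := by
  letI : Algebra k E := φ.toAlgebra
  rw [Nat.card_congr (extEquiv φ)]
  exact card_algHom_le_finrank k L E

end

/-- **embeddings of a large subfield `M` of an extension `L` of `k`** -/
theorem count {E : Type} [Field E] [CharZero E] (F₀ : Subfield E) {n : ℕ}
    (hsplit : ∀ f : F₀[X], f.Monic → f.natDegree ≤ n → (f.map (algebraMap F₀ E)).Splits)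
    {k L : Type} [Field k] [NumberField k] [Field L] [NumberField L] [Algebra k L]
    (hn : finrank k L ≤ n) (M : IntermediateField ℚ L) (T : Finset (k →+* F₀)) :
    ∃ Y : Finset (M →+* E), T.card * finrank k L ≤ Y.card * finrank M L := by
  classical
  haveI : FiniteDimensional k L := Module.Finite.of_restrictScalars_finite ℚ k L
  haveI : FiniteDimensional M L := FiniteDimensional.right ℚ M L
  set g : (k →+* F₀) → Finset (L →+* E) := fun τ =>
    univ.filter fun ψ => ψ.comp (algebraMap k L) = F₀.subtype.comp τ with hg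
  have hgc : ∀ τ, (g τ).card = finrank k L := by
    intro τ
    rw [← card_ext (L := L) (F₀.subtype.comp τ) ?_]
    · rw [Nat.card_eq_fintype_card, Fintype.card_subtype]
    · intro x
      have h1 : (minpoly k x).map (F₀.subtype.comp τ) =
          ((minpoly k x).map τ).map (algebraMap F₀ E) := by
        rw [Polynomial.map_map]
        rfl
      rw [h1]
      have hx : IsIntegral k x := Algebra.IsIntegral.isIntegral x
      apply hsplit _ ((minpoly.monic hx).map _)
      rw [(minpoly.monic hx).natDegree_map]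
      exact (minpoly.natDegree_le x).trans hn
  set X := T.biUnion g with hX
  have hXc : X.card = T.card * finrank k L := by
    rw [hX, card_biUnion]
    · rw [sum_congr rfl fun τ _ => hgc τ, sum_const, smul_eq_mul]
    · intro τ _ τ' _ hne
      show Disjoint (g τ) (g τ')
      rw [Finset.disjoint_left]
      intro ψ h1 h2
      rw [hg, mem_filter] at h1 h2
      apply hne
      have h3 : F₀.subtype.comp τ = F₀.subtype.comp τ' := h1.2.symm.trans h2.2
      ext a
      exact RingHom.congr_fun h3 a
  refine ⟨X.image fun ψ => ψ.comp (algebraMap M L), ?_⟩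
  rw [← hXc, mul_comm]
  apply card_le_mul_card_image
  intro b _
  refine le_trans ?_ (card_ext_le (k := M) (L := L) b)
  rw [Nat.card_eq_fintype_card, Fintype.card_subtype]
  exact card_le_card (filter_subset_filter _ (subset_univ _))

/-- the number of embeddings is at most the degree -/
lemma card_emb_le {E M : Type} [Field E] [CharZero E] [Field M] [NumberField M]
    (Y : Finset (M →+* E)) : Y.card ≤ finrank ℚ M := by
  classical
  have h1 : Y.card ≤ Fintype.card (M →+* E) := card_le_univ _
  have h2 : Fintype.card (M →+* E) = Nat.card (M →ₐ[ℚ] E) := by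
    rw [Fintype.card_eq_nat_card]
    exact Nat.card_congr (RingHom.equivRatAlgHom M E)
  rw [h2] at h1
  exact h1.trans (card_algHom_le_finrank ℚ M E)

/-- **the lower bound for Mahler measures** -/
theorem lehmer_emb {M : Type} [Field M] [NumberField M] (β : 𝓞 M) (hβ0 : β ≠ 0)
    (hβr : ∀ m : ℕ, 0 < m → β ^ m ≠ 1) (hgen : ∀ i : ℕ, 0 < i → ℚ⟮(β : M) ^ i⟯ = ⊤)
    (D : Place.{0}) (Y : Finset (M →+* D.K))
    (h : (finrank ℚ M : ℝ) ^ 2 * (1 + Real.log (finrank ℚ M)) +
      finrank ℚ M * (Y.card / D.e * Real.log D.p) ≤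
      ((Y.card : ℝ) ^ 2 / (D.q - 1) / D.e * Real.log D.p) ^ 2) :
    1189 / 1000 ≤ ((minpoly ℤ (β : M)).map (Int.castRingHom ℂ)).mahlerMeasure := by
  classical
  have hint : IsIntegral ℤ (β : M) := β.isIntegral_coe
  have hf := minpoly.irreducible hint
  have hdeg : (minpoly ℤ (β : M)).natDegree = finrank ℚ M := by
    have h1 : ℚ⟮(β : M)⟯ = ⊤ := by
      have := hgen 1 one_pos
      rwa [pow_one] at this
    have h2 := (Field.primitive_element_iff_minpoly_natDegree_eq ℚ (β : M)).1 h1
    rw [minpoly.isIntegrallyClosed_eq_field_fractions' ℚ hint,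
      natDegree_map_eq_of_injective (algebraMap ℤ ℚ).injective_int] at h2
    exact h2
  -- a complex embedding
  obtain ⟨φ⟩ : Nonempty (M →+* ℂ) := inferInstance
  have hminφ : minpoly ℤ (φ (β : M)) = minpoly ℤ (β : M) := by
    letI : Algebra M ℂ := φ.toAlgebra
    exact minpoly.algebraMap_eq (algebraMap M ℂ).injective (β : M)
  have hM1 : 1 < ((minpoly ℤ (β : M)).map (Int.castRingHom ℂ)).mahlerMeasure := by
    have h1 := Pool.Agent.W963.GE.MM_gt (φ (β : M)) (by
      exact map_isIntegral_int φ hint) (by
      intro h0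
      have h2 : (β : M) = 0 := φ.injective (by rw [h0, map_zero])
      exact hβ0 (RingOfIntegers.coe_eq_zero_iff.1 h2)) (by
      intro m hm h0
      rw [← map_pow] at h0
      have h2 : (β : M) ^ m = 1 := φ.injective (by rw [h0, map_one])
      exact hβr m hm (RingOfIntegers.ext (by simpa using h2)))
    unfold Pool.Agent.W963.GE.MM at h1
    rwa [hminφ] at h1
  -- embeddings are determined by the value at a power of `β`
  have hinj : ∀ i : ℕ, 0 < i → ∀ τ τ' : M →+* D.K, τ (β : M) ^ i = τ' (β : M) ^ i → τ = τ' := by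
    intro i hi τ τ' h1
    have h2 : τ ((β : M) ^ i) = τ' ((β : M) ^ i) := by rw [map_pow, map_pow, h1]
    have h3 : (ℚ⟮(β : M) ^ i⟯).toSubfield ≤ τ.eqLocusField τ' := by
      apply IntermediateField.adjoin_le_subfield
      · rintro _ ⟨q, rfl⟩
        show τ (algebraMap ℚ M q) = τ' (algebraMap ℚ M q)
        rw [eq_ratCast, map_ratCast, map_ratCast]
      · intro y hy
        rw [Set.mem_singleton_iff] at hy
        subst hy
        exact h2
    ext x
    have hx : x ∈ (ℚ⟮(β : M) ^ i⟯).toSubfield := by
      rw [hgen i hi]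
      trivial
    exact h3 hx
  set Z : Finset D.K := Y.image fun τ => τ (β : M) with hZ
  have hZc : Z.card = Y.card := by
    rw [hZ]
    apply card_image_of_injOn
    intro τ _ τ' _ h1
    apply hinj 1 one_pos τ τ'
    rw [pow_one, pow_one]
    exact h1
  refine Pool.Agent.Y642.LZ.sharp_lehmer (minpoly ℤ (β : M)) hf hM1 (Finset.univ : Finset Unit)
    (fun _ => D) (by intro a _ b _ _; rfl) (fun _ => Z) ?_ ?_ (fun _ => 1) rfl rfl ?_
  · rintro _ _ x hx
    rw [hZ, mem_image] at hx
    obtain ⟨τ, -, rfl⟩ := hx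
    have h1 : aeval (τ (β : M)) (minpoly ℤ (β : M)) = τ (aeval (β : M) (minpoly ℤ (β : M))) :=
      aeval_algHom_apply τ.toIntAlgHom (β : M) (minpoly ℤ (β : M))
    rw [h1, minpoly.aeval, map_zero]
  · rintro _ _ x hx y hy m hm hxy
    rw [hZ, mem_image] at hx hy
    obtain ⟨τ, -, rfl⟩ := hx
    obtain ⟨τ', -, rfl⟩ := hy
    rw [hinj m hm τ τ' hxy]
  · have e1 : Pool.Agent.Y642.LZ.linJ (Finset.univ : Finset Unit) (fun _ => D) (fun _ => 1)
        (fun _ => Z.card) = Z.card / D.e * Real.log D.p := by
      unfold Pool.Agent.Y642.LZ.linJ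
      simp
    have e2 : Pool.Agent.Y642.LZ.sqJ (Finset.univ : Finset Unit) (fun _ => D) (fun _ => 1)
        (fun _ => Z.card) = (Z.card : ℝ) ^ 2 / (D.q - 1) / D.e * Real.log D.p := by
      unfold Pool.Agent.Y642.LZ.sqJ Pool.Agent.Y642.LZ.lev
      simp only [Finset.univ_unique, Finset.sum_singleton, Finset.sum_range_one, pow_zero,
        mul_one]
      ring
    rw [e1, e2, hdeg, hZc]
    exact h

end Pool.Agent.V1156.MJ
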