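import Mathlib
import Pool.Agent.V1156.MJ.Count
import Pool.Agent.Y399.MG.H

/-!
# Integral matrices over number fields with many embeddings into a local field
-/

set_option autoImplicit false

namespace Pool.Agent.V1156.MJ

open Finset Polynomial Module NumberField IntermediateField
open Pool.Agent.Y642.LZ (Place)
open Pool.Agent.H225R3.Marg Pool.Agent.Y399.MG

/-- the numerical step -/
lemma numeric {D m R RM r l n s lam κ : ℝ} (hD : 1 ≤ D) (hm : 1 ≤ m) (hr : 1 ≤ r) (hl : 1 ≤ l)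
    (hR : 0 ≤ R) (hRM : 0 ≤ RM) (hlam : 0 ≤ lam) (htow : D * l = m * r)
    (hcount : R * r ≤ RM * l) (hrn : r ≤ n) (hls : l ≤ s * n) (hRMD : RM ≤ D)
    (h : (s * n * m) ^ 2 * (1 + lam + Real.log (n * m)) ≤ (R ^ 2 * κ) ^ 2) :
    D ^ 2 * (1 + Real.log D) + D * (RM * lam) ≤ (RM ^ 2 * κ) ^ 2 := by
  have hl0 : 0 < l := by linarith
  have hm0 : 0 < m := by linarith
  have hD0 : 0 < D := by linarith
  have hn1 : 1 ≤ n := hr.trans hrn
  -- `R D ≤ RM m`
  have h1 : R * D ≤ RM * m := by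
    have h2 : (R * D) * l ≤ (RM * m) * l := by
      calc (R * D) * l = R * (D * l) := by ring
        _ = (R * r) * m := by rw [htow]; ring
        _ ≤ (RM * l) * m := mul_le_mul_of_nonneg_right hcount hm0.le
        _ = (RM * m) * l := by ring
    exact le_of_mul_le_mul_right h2 hl0
  have h2 : m ≤ s * n * D := by
    calc m ≤ m * r := le_mul_of_one_le_right hm0.le hr
      _ = D * l := htow.symm
      _ ≤ D * (s * n) := mul_le_mul_of_nonneg_left hls hD0.le
      _ = s * n * D := by ring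
  have hDnm : D ≤ n * m := by
    calc D ≤ D * l := le_mul_of_one_le_right hD0.le hl
      _ = m * r := htow
      _ ≤ m * n := mul_le_mul_of_nonneg_left hrn hm0.le
      _ = n * m := by ring
  have hlogD : Real.log D ≤ Real.log (n * m) := Real.log_le_log hD0 hDnm
  have hlog0 : 0 ≤ Real.log D := Real.log_nonneg hD
  set B := 1 + lam + Real.log (n * m) with hB
  have hB0 : 0 ≤ B := by linarith
  have h3 : D ^ 2 * (1 + Real.log D) + D * (RM * lam) ≤ D ^ 2 * B := by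
    have h4 : D * (RM * lam) ≤ D * (D * lam) :=
      mul_le_mul_of_nonneg_left (mul_le_mul_of_nonneg_right hRMD hlam) hD0.le
    have h5 : D ^ 2 * Real.log D ≤ D ^ 2 * Real.log (n * m) :=
      mul_le_mul_of_nonneg_left hlogD (by positivity)
    rw [hB]
    nlinarith
  refine h3.trans ?_
  have h6 : (D ^ 2 * B) * m ^ 4 ≤ ((RM ^ 2 * κ) ^ 2) * m ^ 4 := by
    calc (D ^ 2 * B) * m ^ 4 = (m ^ 2 * B * D ^ 2) * m ^ 2 := by ring
      _ ≤ (m ^ 2 * B * D ^ 2) * (s * n * D) ^ 2 := by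
          apply mul_le_mul_of_nonneg_left _ (by positivity)
          exact pow_le_pow_left₀ hm0.le h2 2
      _ = ((s * n * m) ^ 2 * B) * D ^ 4 := by ring
      _ ≤ ((R ^ 2 * κ) ^ 2) * D ^ 4 := mul_le_mul_of_nonneg_right h (by positivity)
      _ = (R * D) ^ 4 * κ ^ 2 := by ring
      _ ≤ (RM * m) ^ 4 * κ ^ 2 := by
          apply mul_le_mul_of_nonneg_right _ (by positivity)
          exact pow_le_pow_left₀ (by positivity) h1 4
      _ = ((RM ^ 2 * κ) ^ 2) * m ^ 4 := by ring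
  exact le_of_mul_le_mul_right h6 (by positivity)

/-- **The lower bound for number fields with many embeddings into a local field.** -/
theorem gap_emb (k : Type) [Field k] [NumberField k] (n s : ℕ) (S : Finset (k →+* ℂ))
    (A : Matrix (Fin n) (Fin n) (𝓞 k)) (hs : S.card ≤ s) (D : Place.{0}) (F₀ : Subfield D.K)
    (hsplit : ∀ f : F₀[X], f.Monic → f.natDegree ≤ n → (f.map (algebraMap F₀ D.K)).Splits)
    (T : Finset (k →+* F₀))
    (hT : ((s : ℝ) * n * finrank ℚ k) ^ 2 *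
      (1 + Real.log D.p / D.e + Real.log (n * finrank ℚ k)) ≤
      ((T.card : ℝ) ^ 2 * (Real.log D.p / (D.e * (D.q - 1)))) ^ 2)
    (hA : IsUnit A)
    (hout : ∀ σ : k →+* ℂ, σ ∉ S → ∀ l : ℂ, ((emb σ).mapMatrix A).charpoly.IsRoot l → ‖l‖ ≤ 1)
    (hnil : ∀ N : ℕ, 0 < N → ¬ IsNilpotent (A ^ N - 1)) :
    ∃ σ ∈ S, ∃ l : ℂ, ((emb σ).mapMatrix A).charpoly.IsRoot l ∧ 1 < ‖l‖ ∧
      Real.log (1189 / 1000) ≤ (s * n : ℕ) * Real.log ‖l‖ := by
  refine gap_transfer k n s S A hs _ ?_ hA hout hnil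
  intro L _ _ _ M β hn hM hβ0 hβr hgen
  haveI : FiniteDimensional k L := Module.Finite.of_restrictScalars_finite ℚ k L
  haveI : FiniteDimensional M L := FiniteDimensional.right ℚ M L
  obtain ⟨Y, hY⟩ := count F₀ hsplit hn M T
  have htow := finrank_sub (k := k) M
  have hm1 : (1 : ℝ) ≤ finrank ℚ k := by exact_mod_cast (finrank_pos : 0 < finrank ℚ k)
  have hD1 : (1 : ℝ) ≤ finrank ℚ M := by exact_mod_cast (finrank_pos : 0 < finrank ℚ M)
  have hr1 : (1 : ℝ) ≤ finrank k L := by exact_mod_cast (finrank_pos : 0 < finrank k L)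
  have hl1 : (1 : ℝ) ≤ finrank M L := by exact_mod_cast (finrank_pos : 0 < finrank M L)
  have he1 : (1 : ℝ) ≤ D.e := by exact_mod_cast D.he
  have hlp : 0 ≤ Real.log D.p := Real.log_nonneg (by exact_mod_cast D.hp.one_le)
  have key := numeric (D := finrank ℚ M) (m := finrank ℚ k) (R := T.card) (RM := Y.card)
    (r := finrank k L) (l := finrank M L) (n := n) (s := s) (lam := Real.log D.p / D.e)
    (κ := Real.log D.p / (D.e * (D.q - 1))) hD1 hm1 hr1 hl1 (Nat.cast_nonneg _)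
    (Nat.cast_nonneg _) (by positivity) (by exact_mod_cast htow) (by exact_mod_cast hY)
    (by exact_mod_cast hn) (by exact_mod_cast hM) (by exact_mod_cast card_emb_le Y) hT
  refine Real.log_le_log (by norm_num) (lehmer_emb β hβ0 hβr hgen D Y ?_)
  have e1 : (finrank ℚ M : ℝ) * (Y.card / D.e * Real.log D.p) =
      finrank ℚ M * (Y.card * (Real.log D.p / D.e)) := by ring
  have e2 : (Y.card : ℝ) ^ 2 / (D.q - 1) / D.e * Real.log D.p =
      (Y.card : ℝ) ^ 2 * (Real.log D.p / (D.e * (D.q - 1))) := by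
    rw [div_div, mul_comm ((D.q : ℝ) - 1)]
    ring
  rw [e1, e2]
  exact key

/-- **The gap.** -/
theorem gap_emb2 (s n : ℕ) : ∃ ε : ℝ, 0 < ε ∧
    ∀ (k : Type) [Field k] [NumberField k] (S : Finset (k →+* ℂ))
      (A : Matrix (Fin n) (Fin n) (𝓞 k)), S.card ≤ s →
      ∀ (D : Place.{0}) (F₀ : Subfield D.K),
      (∀ f : F₀[X], f.Monic → f.natDegree ≤ n → (f.map (algebraMap F₀ D.K)).Splits) →
      ∀ (T : Finset (k →+* F₀)), ((s : ℝ) * n * finrank ℚ k) ^ 2 *
        (1 + Real.log D.p / D.e + Real.log (n * finrank ℚ k)) ≤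
        ((T.card : ℝ) ^ 2 * (Real.log D.p / (D.e * (D.q - 1)))) ^ 2 →
      IsUnit A →
      (∀ σ : k →+* ℂ, σ ∉ S → ∀ l : ℂ, ((emb σ).mapMatrix A).charpoly.IsRoot l → ‖l‖ ≤ 1) →
      (∀ N : ℕ, 0 < N → ¬ IsNilpotent (A ^ N - 1)) →
      ∃ σ ∈ S, ∃ l : ℂ, ((emb σ).mapMatrix A).charpoly.IsRoot l ∧ ε ≤ ‖l - 1‖ := by
  obtain ⟨ε, hε, h⟩ := exists_eps (s * n) (Real.log (1189 / 1000))
    (Real.log_pos (by norm_num))
  refine ⟨ε, hε, ?_⟩
  intro k _ _ S A hs D F₀ hsplit T hT hA hout hnil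
  obtain ⟨σ, hσ, l, hl, hl1, hlow⟩ := gap_emb k n s S A hs D F₀ hsplit T hT hA hout hnil
  exact ⟨σ, hσ, l, hl, h l hlow hl1⟩

end Pool.Agent.V1156.MJ
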