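import Mathlib
import Pool.Agent.H225R3.MargDefs
import Pool.Agent.V1156.MJ.Count

/-!
# Base change of arithmetic realizations, and groups with abelian subgroups of small index
-/

set_option autoImplicit false

namespace Pool.Agent.V1156.MJ

open NumberField Module Pool.Agent.H225R3.Marg

section

variable {k k' : Type} [Field k] [NumberField k] [Field k'] [NumberField k'] [Algebra k k']

/-- the embeddings of `k'` above the embeddings in `S` -/
noncomputable def above (S : Finset (k →+* ℂ)) : Finset (k' →+* ℂ) := by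
  classical exact Finset.univ.filter fun τ => τ.comp (algebraMap k k') ∈ S

lemma mem_above {S : Finset (k →+* ℂ)} {τ : k' →+* ℂ} :
    τ ∈ above S ↔ τ.comp (algebraMap k k') ∈ S := by
  classical
  unfold above
  simp

lemma above_nonempty {S : Finset (k →+* ℂ)} (h : S.Nonempty) :
    (above S : Finset (k' →+* ℂ)).Nonempty := by
  obtain ⟨σ, hσ⟩ := h
  haveI : FiniteDimensional k k' := Module.Finite.of_restrictScalars_finite ℚ k k'
  have h1 := card_ext (L := k') σ (fun _ => IsAlgClosed.splits _)
  have h2 : 0 < Nat.card {ψ : k' →+* ℂ // ψ.comp (algebraMap k k') = σ} := by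
    rw [h1]; exact finrank_pos
  obtain ⟨⟨ψ, hψ⟩⟩ := (Nat.card_pos_iff.1 h2).1
  exact ⟨ψ, mem_above.2 (by rw [hψ]; exact hσ)⟩

lemma above_card (S : Finset (k →+* ℂ)) :
    (above S : Finset (k' →+* ℂ)).card ≤ finrank k k' * S.card := by
  classical
  haveI : FiniteDimensional k k' := Module.Finite.of_restrictScalars_finite ℚ k k'
  apply Finset.card_le_mul_card_image_of_maps_to (f := fun τ => τ.comp (algebraMap k k'))
    (fun τ hτ => mem_above.1 hτ)
  intro b _
  refine le_trans ?_ (card_ext_le (k := k) (L := k') b)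
  rw [Nat.card_eq_fintype_card, Fintype.card_subtype]
  exact Finset.card_le_card (Finset.filter_subset_filter _ (Finset.subset_univ _))

/-- **base change** -/
noncomputable def baseChange {G : Type*} [Group G] {M : ℕ} {ρ : G →* Matrix (Fin M) (Fin M) ℂ}
    {Γ : Subgroup G} {n : ℕ} {S : Finset (k →+* ℂ)} (R : Realization ρ Γ k n S) :
    Realization ρ Γ k' n (above S) := by
  have hconj : ∀ (τ : k' →+* ℂ) (A : Matrix (Fin n) (Fin n) (𝓞 k)),
      conjMat τ ((algebraMap (𝓞 k) (𝓞 k')).mapMatrix A) = conjMat (τ.comp (algebraMap k k')) A := by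
    intro τ A
    ext i j
    simp only [conjMat, Matrix.map_apply, RingHom.mapMatrix_apply, RingHom.comp_apply]
    congr 1
  exact
    { r := ((algebraMap (𝓞 k) (𝓞 k')).mapMatrix.toMonoidHom).comp R.r
      nonempty := above_nonempty R.nonempty
      compact := by
        intro τ hτ
        rw [mem_above] at hτ
        obtain ⟨B, hB⟩ := R.compact _ hτ
        refine ⟨B, fun γ i j => ?_⟩
        have h1 := hB γ i j
        rw [← hconj] at h1
        exact h1
      eig := by
        intro τ hτ γ l hl
        rw [mem_above] at hτ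
        apply R.eig _ hτ γ l
        rw [← hconj]
        exact hl
      unipotent := by
        intro γ h
        apply R.unipotent γ
        have hinj : Function.Injective ((algebraMap (𝓞 k) (𝓞 k')).mapMatrix
            : Matrix (Fin n) (Fin n) (𝓞 k) →+* Matrix (Fin n) (Fin n) (𝓞 k')) := by
          intro A B hAB
          ext i j
          have h1 := congrFun (congrFun (congrArg (fun X => (X : Matrix _ _ _)) hAB) i) j
          simp only [RingHom.mapMatrix_apply, Matrix.map_apply] at h1
          exact congrArg _ (FaithfulSMul.algebraMap_injective (𝓞 k) (𝓞 k') h1)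
        have h2 : IsNilpotent ((algebraMap (𝓞 k) (𝓞 k')).mapMatrix (R.r γ - 1)) := by
          rw [map_sub, map_one]
          exact h
        exact (IsNilpotent.map_iff hinj).1 h2 }

end

/-- elements of an abelian subgroup of index at most `B` have at most `B` conjugates -/
theorem conj_card {Q : Type*} [Group Q] (A : Subgroup Q) (hA0 : A.index ≠ 0)
    (hcomm : ∀ a ∈ A, ∀ b ∈ A, a * b = b * a) {x : Q} (hx : x ∈ A) :
    (Set.range fun g : Q => g * x * g⁻¹).ncard ≤ A.index := by
  haveI : A.FiniteIndex := ⟨hA0⟩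
  haveI : Finite (Q ⧸ A) := Subgroup.finite_quotient_of_finiteIndex
  let f : Q ⧸ A → Q := fun c => c.out * x * c.out⁻¹
  have hsub : (Set.range fun g : Q => g * x * g⁻¹) ⊆ Set.range f := by
    rintro _ ⟨g, rfl⟩
    refine ⟨(g : Q ⧸ A), ?_⟩
    obtain ⟨a, ha⟩ := QuotientGroup.mk_out_eq_mul A g
    show (g : Q ⧸ A).out * x * ((g : Q ⧸ A).out)⁻¹ = g * x * g⁻¹
    rw [ha]
    have h1 : (a : Q) * x = x * a := hcomm a a.2 x hx
    calc g * (a : Q) * x * (g * (a : Q))⁻¹ = g * ((a : Q) * x) * (a : Q)⁻¹ * g⁻¹ := by group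
      _ = g * (x * a) * (a : Q)⁻¹ * g⁻¹ := by rw [h1]
      _ = g * x * g⁻¹ := by group
  calc (Set.range fun g : Q => g * x * g⁻¹).ncard ≤ (Set.range f).ncard :=
        Set.ncard_le_ncard hsub (Set.finite_range f)
    _ ≤ Nat.card (Q ⧸ A) := by
        rw [← Set.image_univ]
        refine (Set.ncard_image_le Set.finite_univ).trans ?_
        rw [Set.ncard_univ]
    _ = A.index := rfl

/-- the `B!`-th powers lie in a subgroup of index at most `B` -/
theorem pow_mem_of_index {Q : Type*} [Group Q] (A : Subgroup Q) (hA0 : A.index ≠ 0) {B : ℕ}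
    (hB : A.index ≤ B) (x : Q) : x ^ B.factorial ∈ A := by
  obtain ⟨n, hn0, hn, hx⟩ := Subgroup.exists_pow_mem_of_index_ne_zero hA0 x
  obtain ⟨c, hc⟩ := Nat.dvd_factorial hn0 (hn.trans hB)
  rw [hc, pow_mul]
  exact A.pow_mem hx c

end Pool.Agent.V1156.MJ
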